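import Pool.Agent.H13.Ceg.Fin3

/-!
# The measure `λ ⊗ δ₀` on the bidisc is not a Monge-Ampere measure of class `𝓕`

All definitions used in the statement are in this file.
-/

open MeasureTheory Set Filter Topology Metric
open scoped ContDiff ENNReal NNReal

namespace Pool.Agent.Results.MP_4eb3f9_an.LebesgueDiracNotMA

/-- The open bidisc `𝔻 × 𝔻` in `ℂ²`. -/
def Bidisc : Set (ℂ × ℂ) := {x | ‖x.1‖ < 1 ∧ ‖x.2‖ < 1}

/-- The derivative of `f` at `x` in the direction `v` (real derivative on `ℂ² = ℝ⁴`). -/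
noncomputable def dirDeriv (v : ℂ × ℂ) (f : ℂ × ℂ → ℝ) (x : ℂ × ℂ) : ℝ := fderiv ℝ f x v

/-- `∂²f / ∂z ∂z̄`, where `z = x₁ + i y₁` is the first coordinate. -/
noncomputable def hessZZ (f : ℂ × ℂ → ℝ) (x : ℂ × ℂ) : ℝ :=
  (dirDeriv (1, 0) (dirDeriv (1, 0) f) x
    + dirDeriv (Complex.I, 0) (dirDeriv (Complex.I, 0) f) x) / 4

/-- `∂²f / ∂w ∂w̄`, where `w = x₂ + i y₂` is the second coordinate. -/
noncomputable def hessWW (f : ℂ × ℂ → ℝ) (x : ℂ × ℂ) : ℝ :=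
  (dirDeriv (0, 1) (dirDeriv (0, 1) f) x
    + dirDeriv (0, Complex.I) (dirDeriv (0, Complex.I) f) x) / 4

/-- `∂²f / ∂z ∂w̄`. -/
noncomputable def hessZW (f : ℂ × ℂ → ℝ) (x : ℂ × ℂ) : ℂ :=
  ((dirDeriv (1, 0) (dirDeriv (0, 1) f) x
      + dirDeriv (Complex.I, 0) (dirDeriv (0, Complex.I) f) x : ℝ)
    + (dirDeriv (1, 0) (dirDeriv (0, Complex.I) f) x
      - dirDeriv (Complex.I, 0) (dirDeriv (0, 1) f) x : ℝ) * Complex.I) / 4

/-- The density of `(dd^c f)²` with respect to Lebesgue measure on `ℂ²` for a smooth `f`, with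
the normalisation `d^c = (i/4π)(∂̄ - ∂)`, that is `dd^c = (i/2π) ∂∂̄`: the density is
`(2/π²) det (f_{j k̄})`. -/
noncomputable def maDensity (f : ℂ × ℂ → ℝ) (x : ℂ × ℂ) : ℝ :=
  2 / Real.pi ^ 2 * (hessZZ f x * hessWW f x - ‖hessZW f x‖ ^ 2)

/-- Plurisubharmonicity of a real-valued function on an open set `U ⊆ ℂ²`: upper semicontinuity
and the sub-mean value property on all closed analytic affine discs contained in `U`. -/
def PSHOn (U : Set (ℂ × ℂ)) (u : ℂ × ℂ → ℝ) : Prop :=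
  UpperSemicontinuousOn u U ∧
    ∀ x v : ℂ × ℂ, (∀ ζ : ℂ, ‖ζ‖ ≤ 1 → x + ζ • v ∈ U) →
      u x ≤ Real.circleAverage (fun ζ : ℂ => u (x + ζ • v)) 0 1

/-- `m` is the (Bedford-Taylor) Monge-Ampere measure `(dd^c u)²` of `u` on the bidisc:
for every open `U ⊆ 𝔻 × 𝔻` and every sequence of smooth plurisubharmonic functions on `U`
decreasing to `u` on `U`, their Monge-Ampere measures converge weakly to `m` on `U`. -/
def IsMongeAmpere (u : ℂ × ℂ → ℝ) (m : Measure (ℂ × ℂ)) : Prop :=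
  ∀ U : Set (ℂ × ℂ), IsOpen U → U ⊆ Bidisc →
    ∀ s : ℕ → ℂ × ℂ → ℝ, (∀ n, ContDiffOn ℝ ∞ (s n) U) → (∀ n, PSHOn U (s n)) →
      (∀ x ∈ U, Antitone fun n => s n x) →
      (∀ x ∈ U, Tendsto (fun n => s n x) atTop (𝓝 (u x))) →
      ∀ φ : ℂ × ℂ → ℝ, Continuous φ → HasCompactSupport φ → tsupport φ ⊆ U →
        Tendsto (fun n => ∫ x, φ x * maDensity (s n) x) atTop (𝓝 (∫ x, φ x ∂m))

/-- `u` belongs to Cegrell's class `𝓔₀(𝔻 × 𝔻)` and `(dd^c u)² = m`: `u` is a bounded negative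
plurisubharmonic function tending to `0` at the boundary, with finite Monge-Ampere mass. -/
structure InE0 (u : ℂ × ℂ → ℝ) (m : Measure (ℂ × ℂ)) : Prop where
  psh : PSHOn Bidisc u
  nonpos : ∀ x ∈ Bidisc, u x ≤ 0
  bounded : ∃ C : ℝ, ∀ x ∈ Bidisc, -C ≤ u x
  boundary : ∀ p ∈ frontier Bidisc, Tendsto u (𝓝[Bidisc] p) (𝓝 0)
  ma : IsMongeAmpere u m
  finite : m Bidisc < ⊤

/-- `u` is a negative plurisubharmonic function on the bidisc, with values in `[-∞, 0]` and not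
identically `-∞`: it is upper semicontinuous and on every closed analytic affine disc in the
bidisc the mean of `-u ≥ 0` over the circle is at most the value of `-u` at the centre. -/
structure IsPSHNeg (u : ℂ × ℂ → EReal) : Prop where
  usc : UpperSemicontinuousOn u Bidisc
  nonpos : ∀ x ∈ Bidisc, u x ≤ 0
  ne_bot : ∃ x ∈ Bidisc, u x ≠ ⊥
  submean : ∀ x v : ℂ × ℂ, (∀ ζ : ℂ, ‖ζ‖ ≤ 1 → x + ζ • v ∈ Bidisc) →
    ∫⁻ θ in Ioc 0 (2 * Real.pi), (-u (x + circleMap 0 1 θ • v)).toENNReal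
      ≤ ENNReal.ofReal (2 * Real.pi) * (-u x).toENNReal

/-- `v` is a sequence in `𝓔₀(𝔻 × 𝔻)` decreasing to `u` on the bidisc, `m j` is the
Monge-Ampere measure of `v j`, and the total masses of the `m j` are bounded. -/
structure FSeq (u : ℂ × ℂ → EReal) (v : ℕ → ℂ × ℂ → ℝ) (m : ℕ → Measure (ℂ × ℂ)) : Prop where
  e0 : ∀ j, InE0 (v j) (m j)
  anti : ∀ x ∈ Bidisc, Antitone fun j => v j x
  lim : ∀ x ∈ Bidisc, Tendsto (fun j => ((v j x : ℝ) : EReal)) atTop (𝓝 (u x))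
  mass : ∃ C : ℝ≥0, ∀ j, m j Bidisc ≤ C

/-- `u` belongs to Cegrell's class `𝓕(𝔻 × 𝔻)`. -/
def ClassF (u : ℂ × ℂ → EReal) : Prop :=
  IsPSHNeg u ∧ ∃ v m, FSeq u v m

/-- `(dd^c u)² = μ` on the bidisc, for `u ∈ 𝓕(𝔻 × 𝔻)`: `μ` is on the bidisc the weak limit of
`(dd^c v_j)²` for a sequence `v_j` as in the definition of `𝓕`. -/
def HasMA (u : ℂ × ℂ → EReal) (μ : Measure (ℂ × ℂ)) : Prop :=
  ∃ v m, FSeq u v m ∧
    ∀ φ : ℂ × ℂ → ℝ, Continuous φ → HasCompactSupport φ → tsupport φ ⊆ Bidisc →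
      Tendsto (fun j => ∫ x, φ x ∂(m j)) atTop (𝓝 (∫ x, φ x ∂μ))

/-- The measure `λ ⊗ δ₀`: Lebesgue measure on the unit disc times the Dirac mass at `0`. -/
noncomputable def lamDelta : Measure (ℂ × ℂ) :=
  ((volume : Measure ℂ).restrict (ball 0 1)).prod (Measure.dirac 0)

lemma toMA {u : ℂ × ℂ → ℝ} {m : Measure (ℂ × ℂ)} (h : IsMongeAmpere u m) :
    H13Ceg.IsMongeAmpere u m := h

lemma toE0 {u : ℂ × ℂ → ℝ} {m : Measure (ℂ × ℂ)} (h : InE0 u m) : H13Ceg.InE0 u m :=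
  ⟨h.psh, h.nonpos, h.bounded, h.boundary, toMA h.ma, h.finite⟩

/-- There is no `u ∈ 𝓕(𝔻 × 𝔻)` with `(dd^c u)² = λ ⊗ δ₀`. -/
theorem result : ¬ ∃ u : ℂ × ℂ → EReal, ClassF u ∧ HasMA u lamDelta := by
  rintro ⟨u, -, v, m, hF, hw⟩
  exact H13Ceg.final_false (u := u)
    ⟨v, m, ⟨fun j => toE0 (hF.e0 j), hF.anti, hF.lim, hF.mass⟩, hw⟩

end Pool.Agent.Results.MP_4eb3f9_an.LebesgueDiracNotMA
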